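import Pool.Agent.V5helper51.MW.Stm

/-!
# Project MW, job MINZ: the sieve model on the minor arcs
-/

set_option autoImplicit false

namespace Pool.Agent.V5helper22.MW

open Finset
open Pool.Agent.V5helper51.MW
open Pool.Agent.V5helper51.CM (Sf Bw)
open Pool.Agent.H373R2.T7

/-- the truncated sieve weights -/
noncomputable def al (z r : ℕ) (d : ℕ) : ℂ :=
  if Squarefree d ∧ d.primeFactors ⊆ pz z ∧ d.primeFactors.card < r then (-1 : ℂ) ^ d.primeFactors.card else 0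

lemma al_norm (z r d : ℕ) : ‖al z r d‖ ≤ 1 := by
  unfold al
  split_ifs
  · rw [norm_pow, norm_neg, norm_one, one_pow]
  · rw [norm_zero]; norm_num

lemma al_supp (z r d : ℕ) (hz : 1 ≤ z) (h : al z r d ≠ 0) : 1 ≤ d ∧ d ≤ z ^ r := by
  unfold al at h
  split_ifs at h with h1
  · obtain ⟨h2, h3, h4⟩ := h1
    refine ⟨Nat.pos_of_ne_zero h2.ne_zero, ?_⟩
    rw [← Nat.prod_primeFactors_of_squarefree h2]
    calc ∏ p ∈ d.primeFactors, p ≤ ∏ p ∈ d.primeFactors, z :=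
          prod_le_prod' fun p hp => (mem_pz.1 (h3 hp)).1
      _ = z ^ d.primeFactors.card := by rw [prod_const]
      _ ≤ z ^ r := Nat.pow_le_pow_right hz h4.le
  · exact absurd rfl h

/-- the indicator of divisibility by all the members of `S` -/
noncomputable def ind (S : Finset ℕ) (n : ℕ) : ℝ := if ∀ p ∈ S, p ∣ n then 1 else 0

lemma cv_al (z r n : ℕ) (hn : 1 ≤ n) :
    cv (al z r) (fun n => if 0 < n then ((1 : ℝ) : ℂ) else 0) n =
      ((∑ j ∈ range r, (-1 : ℝ) ^ j * ∑ S ∈ (pz z).powersetCard j, ind S n : ℝ) : ℂ) := by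
  have e1 : (∑ j ∈ range r, (-1 : ℝ) ^ j * ∑ S ∈ (pz z).powersetCard j, ind S n) =
      ∑ S ∈ (pz z).powerset.filter (fun S => S.card < r ∧ ∀ p ∈ S, p ∣ n), (-1 : ℝ) ^ S.card := by
    have h1 : ∀ j ∈ range r, (-1 : ℝ) ^ j * ∑ S ∈ (pz z).powersetCard j, ind S n =
        ∑ S ∈ ((pz z).powerset.filter (fun S => S.card < r ∧ ∀ p ∈ S, p ∣ n)).filter (fun S => S.card = j),
          (-1 : ℝ) ^ S.card := by
      intro j hj
      rw [mem_range] at hj
      rw [mul_sum, filter_filter]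
      have h2 : (pz z).powerset.filter (fun S => (S.card < r ∧ ∀ p ∈ S, p ∣ n) ∧ S.card = j) =
          ((pz z).powersetCard j).filter (fun S => ∀ p ∈ S, p ∣ n) := by
        ext S
        rw [mem_filter, mem_filter, mem_powerset, mem_powersetCard]
        constructor
        · rintro ⟨h3, ⟨_, h5⟩, h6⟩
          exact ⟨⟨h3, h6⟩, h5⟩
        · rintro ⟨⟨h3, h6⟩, h5⟩
          exact ⟨h3, ⟨by omega, h5⟩, h6⟩
      rw [h2, sum_filter]
      apply sum_congr rfl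
      intro S hS
      rw [mem_powersetCard] at hS
      unfold ind
      split_ifs
      · rw [hS.2, mul_one]
      · rw [mul_zero]
    rw [sum_congr rfl h1]
    refine sum_fiberwise_of_maps_to (fun S hS => ?_) _
    rw [mem_filter] at hS
    exact mem_range.2 hS.2.1
  rw [e1]
  unfold cv
  have e2 : ∀ d ∈ n.divisors, al z r d * (if 0 < n / d then ((1 : ℝ) : ℂ) else 0) = al z r d := by
    intro d hd
    rw [Nat.mem_divisors] at hd
    have h1 : 0 < n / d := Nat.div_pos (Nat.le_of_dvd (by omega) hd.1) (Nat.pos_of_dvd_of_pos hd.1 (by omega))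
    rw [if_pos h1]
    simp
  rw [sum_congr rfl e2]
  unfold al
  rw [← sum_filter]
  push_cast
  refine sum_bij' (fun d _ => d.primeFactors) (fun S _ => ∏ p ∈ S, p) ?_ ?_ ?_ ?_ ?_
  · intro d hd
    rw [mem_filter, Nat.mem_divisors] at hd
    rw [mem_filter, mem_powerset]
    exact ⟨hd.2.2.1, hd.2.2.2, fun p hp => (Nat.dvd_of_mem_primeFactors hp).trans hd.1.1⟩
  · intro S hS
    rw [mem_filter, mem_powerset] at hS
    have hp : ∀ p ∈ S, p.Prime := fun p hp => (mem_pz.1 (hS.1 hp)).2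
    have h1 : (∏ p ∈ S, p).primeFactors = S := Nat.primeFactors_prod hp
    rw [mem_filter, Nat.mem_divisors]
    refine ⟨⟨?_, by omega⟩, ?_, ?_, ?_⟩
    · exact Finset.prod_primes_dvd n (fun p h => (hp p h).prime) hS.2.2
    · exact Finset.squarefree_prod_of_pairwise_isCoprime
        (fun p h q h' hpq => Nat.coprime_iff_isRelPrime.1 ((Nat.coprime_primes (hp p h) (hp q h')).2 hpq))
        (fun p h => (hp p h).squarefree)
    · rw [h1]; exact hS.1
    · rw [h1]; exact hS.2.1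
  · intro d hd
    rw [mem_filter] at hd
    exact Nat.prod_primeFactors_of_squarefree hd.2.1
  · intro S hS
    rw [mem_filter, mem_powerset] at hS
    exact Nat.primeFactors_prod fun p hp => (mem_pz.1 (hS.1 hp)).2
  · intro d hd
    rfl

/-- the moment of the number of small prime factors -/
lemma moment (z N : ℕ) :
    ∑ n ∈ Icc 1 N, Real.exp (6 * ∑ p ∈ pz z, (if p ∣ n then (1 : ℝ) else 0)) ≤
      N * Real.exp (729 * (1 + Real.log z)) := by
  set A : ℝ := Real.exp 6 - 1 with hA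
  have hA0 : 0 ≤ A := by
    have := Real.add_one_le_exp (6 : ℝ)
    rw [hA]; linarith
  have hA1 : A ≤ 729 := by
    have h1 : Real.exp 6 = Real.exp 1 ^ 6 := by rw [← Real.exp_nat_mul]; norm_num
    have h2 : Real.exp 1 < 3 := by
      have := Real.exp_one_lt_d9
      linarith
    have h3 : Real.exp 1 ^ 6 ≤ 3 ^ 6 := pow_le_pow_left₀ (Real.exp_pos 1).le h2.le 6
    rw [hA, h1]
    norm_num at h3
    linarith
  have e1 : ∀ n, Real.exp (6 * ∑ p ∈ pz z, (if p ∣ n then (1 : ℝ) else 0)) =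
      ∑ S ∈ (pz z).powerset, A ^ S.card * ind S n := by
    intro n
    rw [mul_sum, Real.exp_sum]
    have h1 : ∀ p ∈ pz z, Real.exp (6 * (if p ∣ n then (1 : ℝ) else 0)) =
        1 + A * (if p ∣ n then (1 : ℝ) else 0) := by
      intro p _
      split_ifs
      · rw [mul_one, mul_one, hA]; ring
      · simp
    rw [prod_congr rfl h1, prod_one_add]
    apply sum_congr rfl
    intro S _
    rw [prod_mul_distrib, prod_const, prod_boole]
    rfl
  rw [sum_congr rfl (fun n _ => e1 n), sum_comm]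
  have e2 : ∀ S ∈ (pz z).powerset, ∑ n ∈ Icc 1 N, A ^ S.card * ind S n ≤ N * ∏ p ∈ S, (A * (1 / (p : ℝ))) := by
    intro S hS
    rw [mem_powerset] at hS
    have hp : ∀ p ∈ S, p.Prime := fun p hp => (mem_pz.1 (hS hp)).2
    rw [← mul_sum, prod_mul_distrib, prod_const]
    have h1 : ∑ n ∈ Icc 1 N, ind S n ≤ N * ∏ p ∈ S, (1 / (p : ℝ)) := by
      have h2 : ∑ n ∈ Icc 1 N, ind S n = (((Ioc 0 N).filter (fun n => (∏ p ∈ S, p) ∣ n)).card : ℝ) := by
        unfold ind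
        rw [sum_boole]
        congr 2
        ext n
        rw [mem_filter, mem_filter, mem_Icc, mem_Ioc]
        constructor
        · rintro ⟨h3, h4⟩
          exact ⟨by omega, Finset.prod_primes_dvd n (fun p h => (hp p h).prime) h4⟩
        · rintro ⟨h3, h4⟩
          exact ⟨by omega, fun p h => (dvd_prod_of_mem (fun p => p) h).trans h4⟩
      rw [h2, Nat.Ioc_filter_dvd_card_eq_div]
      refine (Nat.cast_div_le).trans (le_of_eq ?_)
      push_cast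
      rw [div_eq_mul_inv, ← prod_inv_distrib]
      simp only [one_div]
    calc A ^ S.card * ∑ n ∈ Icc 1 N, ind S n ≤ A ^ S.card * (N * ∏ p ∈ S, (1 / (p : ℝ))) :=
          mul_le_mul_of_nonneg_left h1 (pow_nonneg hA0 _)
      _ = N * (A ^ S.card * ∏ p ∈ S, (1 / (p : ℝ))) := by ring
  refine (sum_le_sum e2).trans ?_
  rw [← mul_sum, ← prod_one_add]
  apply mul_le_mul_of_nonneg_left _ (Nat.cast_nonneg _)
  calc ∏ p ∈ pz z, (1 + A * (1 / (p : ℝ))) ≤ ∏ p ∈ pz z, Real.exp (A * (1 / (p : ℝ))) := by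
        apply prod_le_prod
        · intro p _; positivity
        · intro p _
          have := Real.add_one_le_exp (A * (1 / (p : ℝ)))
          linarith
    _ = Real.exp (A * ∑ p ∈ pz z, 1 / (p : ℝ)) := by rw [mul_sum, Real.exp_sum]
    _ ≤ Real.exp (729 * (1 + Real.log z)) := by
        apply Real.exp_le_exp.2
        have h1 := sum_pz_le z
        have h2 : 0 ≤ ∑ p ∈ pz z, 1 / (p : ℝ) := sum_nonneg fun p _ => by positivity
        calc A * ∑ p ∈ pz z, 1 / (p : ℝ) ≤ 729 * ∑ p ∈ pz z, 1 / (p : ℝ) := mul_le_mul_of_nonneg_right hA1 h2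
          _ ≤ _ := by linarith

/-- the error of the truncation -/
noncomputable def er (z r n : ℕ) : ℝ := (if ∀ p ∈ pz z, ¬ p ∣ n then (1 : ℝ) else 0) -
  ∑ j ∈ range r, (-1 : ℝ) ^ j * ∑ S ∈ (pz z).powersetCard j, ind S n

lemma er_sq (z r n : ℕ) : er z r n ^ 2 ≤
    Real.exp (6 * ∑ p ∈ pz z, (if p ∣ n then (1 : ℝ) else 0)) * Real.exp (-(2 * r)) := by
  have h1 : |er z r n| ≤ Real.exp (3 * ∑ p ∈ pz z, (if p ∣ n then (1 : ℝ) else 0) - r) := by
    have h2 := bonf_ind (fun p n => p ∣ n) (pz z) r n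
    have h3 := es_le (x := fun p => if p ∣ n then (1 : ℝ) else 0) (T := pz z)
      (fun p _ => by split_ifs <;> norm_num) r
    refine le_trans ?_ h3
    unfold er ind es
    simp only [prod_boole]
    refine le_trans (le_of_eq ?_) (h2.trans (le_of_eq ?_))
    · congr!
    · congr!
  have h2 : Real.exp (6 * ∑ p ∈ pz z, (if p ∣ n then (1 : ℝ) else 0)) * Real.exp (-(2 * r)) =
      Real.exp (3 * ∑ p ∈ pz z, (if p ∣ n then (1 : ℝ) else 0) - r) ^ 2 := by
    rw [← Real.exp_add, ← Real.exp_nat_mul]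
    congr 1
    push_cast
    ring
  rw [h2, ← sq_abs]
  exact pow_le_pow_left₀ (abs_nonneg _) h1 2

lemma er_sum (z r N : ℕ) : ∑ n ∈ Icc 1 N, er z r n ^ 2 ≤
    N * Real.exp (729 * (1 + Real.log z) - 2 * r) := by
  refine (sum_le_sum fun n _ => er_sq z r n).trans ?_
  rw [← sum_mul]
  refine (mul_le_mul_of_nonneg_right (moment z N) (Real.exp_pos _).le).trans (le_of_eq ?_)
  rw [mul_assoc, ← Real.exp_add]
  rfl

/-- **MINZ1**: the exponent of the logarithm does not depend on `E` -/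
theorem minz1 : S_ELM1 → S_T1 → ∀ U : ℕ, ∃ C : ℕ, ∀ E : ℕ, ∃ N₀ : ℕ, ∀ N : ℕ, N₀ ≤ N → ∀ z P Y : ℕ, 1 ≤ z →
    (z : ℝ) ≤ Real.log N ^ E → (Vz z)⁻¹ ≤ Real.log N → Real.log N ^ C ≤ P → (P : ℝ) ≤ (N : ℝ) ^ (1 / 20 : ℝ) →
    (N : ℝ) ^ (1 / 4 : ℝ) ≤ Y → Y ^ 2 ≤ N → ∀ γ : ℝ, Mnr P Y γ →
    Wn (fun n => ((lamz z n : ℝ) : ℂ)) N Y γ ≤ N * (Y : ℝ) ^ 2 / Real.log N ^ U := by
  intro hE hT U
  obtain ⟨C₁, hC₁, hT⟩ := hT
  refine ⟨U + 5, fun E => ?_⟩
  obtain ⟨N1, h1⟩ := choice 243 E (U + 3) 20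
  obtain ⟨N2, h2⟩ := Filter.eventually_atTop.1
    (((Real.tendsto_log_atTop.comp (tendsto_natCast_atTop_atTop (R := ℝ))).eventually_ge_atTop (16 * C₁ + 4)))
  refine ⟨max (max N1 N2) 2, fun N hN z P Y hz1 hzE hV hP1 hP2 hY1 hY2 γ hM => ?_⟩
  obtain ⟨r, hr1, hr2, _⟩ := h1 N (le_trans (le_trans (le_max_left _ _) (le_max_left _ _)) hN) z hzE
  have hL := h2 N (le_trans (le_trans (le_max_right _ _) (le_max_left _ _)) hN)
  simp only [Function.comp_apply] at hL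
  have hN2 : 2 ≤ N := le_trans (le_max_right _ _) hN
  have hN0 : (0 : ℝ) < N := by exact_mod_cast (by omega : 0 < N)
  have hN1 : (1 : ℝ) ≤ N := by exact_mod_cast (by omega : 1 ≤ N)
  set L := Real.log N with hLd
  have hL4 : 4 ≤ L := by linarith
  have hL0 : 0 < L := by linarith
  have hP0 : (1 : ℝ) ≤ P := le_trans (one_le_pow₀ (by linarith)) hP1
  have hY0 : (1 : ℝ) ≤ Y := le_trans (Real.one_le_rpow hN1 (by norm_num)) hY1
  have hY0' : 1 ≤ Y := by exact_mod_cast hY0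
  set V := (Vz z)⁻¹ with hVd
  have hV0 : 0 < V := inv_pos.2 (Vz_pos z)
  set D := z ^ r with hD
  have hD1 : 1 ≤ D := Nat.one_le_pow _ _ hz1
  have hD1' : (1 : ℝ) ≤ D := by exact_mod_cast hD1
  have hD20 : (D : ℝ) ^ 20 ≤ N := by
    refine le_trans ?_ hr2
    apply pow_le_pow_left₀ (by positivity)
    rw [hD]
    push_cast
    apply pow_le_pow_left₀ (by positivity)
    linarith
  have hP20 : (P : ℝ) ^ 20 ≤ N := by
    have h3 : ((N : ℝ) ^ (1 / 20 : ℝ)) ^ 20 = N := by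
      rw [← Real.rpow_natCast, ← Real.rpow_mul hN0.le]
      norm_num
    rw [← h3]
    exact pow_le_pow_left₀ (by positivity) hP2 20
  have hY4 : (N : ℝ) ≤ (Y : ℝ) ^ 4 := by
    have h3 : ((N : ℝ) ^ (1 / 4 : ℝ)) ^ 4 = N := by
      rw [← Real.rpow_natCast, ← Real.rpow_mul hN0.le]
      norm_num
    nth_rw 1 [← h3]
    exact pow_le_pow_left₀ (by positivity) hY1 4
  have hDN : D ≤ N := by
    have h3 : (D : ℝ) ≤ N := le_trans (le_self_pow₀ hD1' (by norm_num)) hD20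
    exact_mod_cast h3
  have hDQ : (D : ℝ) * P ≤ (Y : ℝ) ^ 2 := by
    refine (pow_le_pow_iff_left₀ (by positivity) (by positivity) (by norm_num : (20 : ℕ) ≠ 0)).1 ?_
    calc ((D : ℝ) * P) ^ 20 = (D : ℝ) ^ 20 * (P : ℝ) ^ 20 := by ring
      _ ≤ (N : ℝ) * N := mul_le_mul hD20 hP20 (by positivity) (by positivity)
      _ ≤ (Y : ℝ) ^ 4 * (Y : ℝ) ^ 4 := mul_le_mul hY4 hY4 (by positivity) (by positivity)
      _ = (Y : ℝ) ^ 8 := by ring
      _ ≤ (Y : ℝ) ^ 40 := pow_le_pow_right₀ hY0 (by norm_num)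
      _ = ((Y : ℝ) ^ 2) ^ 20 := by ring
  have hDDQ : (D : ℝ) ^ 2 * P ≤ N * Y := by
    have h3 : (D : ℝ) ^ 2 * P ≤ N := by
      refine (pow_le_pow_iff_left₀ (by positivity) (by positivity) (by norm_num : (20 : ℕ) ≠ 0)).1 ?_
      calc ((D : ℝ) ^ 2 * P) ^ 20 = (D : ℝ) ^ 20 * (D : ℝ) ^ 20 * (P : ℝ) ^ 20 := by ring
        _ ≤ (N : ℝ) * N * N := mul_le_mul (mul_le_mul hD20 hD20 (by positivity) (by positivity)) hP20
            (by positivity) (by positivity)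
        _ = (N : ℝ) ^ 3 := by ring
        _ ≤ (N : ℝ) ^ 20 := pow_le_pow_right₀ hN1 (by norm_num)
    calc (D : ℝ) ^ 2 * P ≤ N := h3
      _ = N * 1 := by ring
      _ ≤ N * Y := mul_le_mul_of_nonneg_left hY0 hN0.le
  have hT1 := hT N D Y 0 P γ (al z r) (fun _ => 1) hN2 hP0 hD1 hDN hY0' hDQ hDDQ hY2 hM
    (fun d hd => al_supp z r d hz1 hd) (al_norm z r) (fun _ _ _ => le_rfl) (fun _ => zero_le_one) le_rfl
  set g : ℕ → ℂ := cv (al z r) (fun n => if 0 < n then ((1 : ℝ) : ℂ) else 0) with hg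
  have hE1 := hE (fun n => ((er z r n : ℝ) : ℂ)) N Y γ
  have hE2 : ∑ l ∈ Icc 1 N, ‖((er z r l : ℝ) : ℂ)‖ ^ 2 ≤ N / L ^ (U + 3) := by
    have h3 : ∀ l ∈ Icc 1 N, ‖((er z r l : ℝ) : ℂ)‖ ^ 2 = er z r l ^ 2 := by
      intro l _
      rw [Complex.norm_real, Real.norm_eq_abs, sq_abs]
    rw [sum_congr rfl h3]
    refine (er_sum z r N).trans ?_
    rw [div_eq_mul_one_div]
    apply mul_le_mul_of_nonneg_left _ hN0.le
    refine le_trans (Real.exp_le_exp.2 ?_) hr1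
    push_cast
    have : (0 : ℝ) ≤ r := Nat.cast_nonneg _
    linarith
  have hdec : ∀ m, Bw (fun n => ((lamz z n : ℝ) : ℂ)) N Y γ m =
      (V : ℂ) * (Bw g N Y γ m + Bw (fun n => ((er z r n : ℝ) : ℂ)) N Y γ m) := by
    intro m
    unfold Bw
    rw [← sum_add_distrib, mul_sum]
    apply sum_congr rfl
    intro l hl
    have hl1 : 1 ≤ l := (mem_Icc.1 (mem_filter.1 hl).1).1
    have h3 : ((lamz z l : ℝ) : ℂ) = (V : ℂ) * (g l + ((er z r l : ℝ) : ℂ)) := by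
      rw [hg, cv_al z r l hl1, ← Complex.ofReal_add, ← Complex.ofReal_mul]
      congr 1
      unfold lamz er
      rw [← hVd]
      split_ifs <;> ring
    simp only
    rw [h3]
    ring
  have hW : Wn (fun n => ((lamz z n : ℝ) : ℂ)) N Y γ ≤
      2 * V ^ 2 * (Wn g N Y γ + Wn (fun n => ((er z r n : ℝ) : ℂ)) N Y γ) := by
    unfold Wn
    rw [← sum_add_distrib, mul_sum]
    apply sum_le_sum
    intro m _
    rw [hdec m, norm_mul, Complex.norm_real, Real.norm_eq_abs, abs_of_pos hV0, mul_pow]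
    have h3 := norm_add_le (Bw g N Y γ m) (Bw (fun n => ((er z r n : ℝ) : ℂ)) N Y γ m)
    have h4 : ‖Bw g N Y γ m + Bw (fun n => ((er z r n : ℝ) : ℂ)) N Y γ m‖ ^ 2 ≤
        2 * (‖Bw g N Y γ m‖ ^ 2 + ‖Bw (fun n => ((er z r n : ℝ) : ℂ)) N Y γ m‖ ^ 2) := by
      have h5 := pow_le_pow_left₀ (norm_nonneg _) h3 2
      nlinarith [sq_nonneg (‖Bw g N Y γ m‖ - ‖Bw (fun n => ((er z r n : ℝ) : ℂ)) N Y γ m‖)]
    calc V ^ 2 * ‖Bw g N Y γ m + Bw (fun n => ((er z r n : ℝ) : ℂ)) N Y γ m‖ ^ 2 ≤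
          V ^ 2 * (2 * (‖Bw g N Y γ m‖ ^ 2 + ‖Bw (fun n => ((er z r n : ℝ) : ℂ)) N Y γ m‖ ^ 2)) :=
          mul_le_mul_of_nonneg_left h4 (by positivity)
      _ = _ := by ring
  have hWg : Wn g N Y γ ≤ N * (Y : ℝ) ^ 2 * (4 * C₁ * L ^ 2 / L ^ (U + 5)) := by
    refine hT1.trans ?_
    have h3 : (1 + L) ^ 2 ≤ 4 * L ^ 2 := by nlinarith
    have h4 : (1 : ℝ) / P ≤ 1 / L ^ (U + 5) := one_div_le_one_div_of_le (by positivity) hP1
    calc C₁ * (1 + L) ^ 2 * (N * (Y : ℝ) ^ 2) / P = N * (Y : ℝ) ^ 2 * (C₁ * (1 + L) ^ 2 * (1 / P)) := by ring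
      _ ≤ N * (Y : ℝ) ^ 2 * (C₁ * (4 * L ^ 2) * (1 / L ^ (U + 5))) := by gcongr
      _ = _ := by ring
  have hWe : Wn (fun n => ((er z r n : ℝ) : ℂ)) N Y γ ≤ N * (Y : ℝ) ^ 2 * (1 / L ^ (U + 3)) := by
    refine hE1.trans ?_
    calc (Y : ℝ) ^ 2 * ∑ l ∈ Icc 1 N, ‖((er z r l : ℝ) : ℂ)‖ ^ 2 ≤ (Y : ℝ) ^ 2 * (N / L ^ (U + 3)) :=
          mul_le_mul_of_nonneg_left hE2 (by positivity)
      _ = _ := by ring
  refine hW.trans ?_
  have hV2 : V ^ 2 ≤ L ^ 2 := pow_le_pow_left₀ hV0.le hV 2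
  have hnn : (0 : ℝ) ≤ N * (Y : ℝ) ^ 2 := by positivity
  calc 2 * V ^ 2 * (Wn g N Y γ + Wn (fun n => ((er z r n : ℝ) : ℂ)) N Y γ) ≤
        2 * L ^ 2 * (N * (Y : ℝ) ^ 2 * (4 * C₁ * L ^ 2 / L ^ (U + 5)) + N * (Y : ℝ) ^ 2 * (1 / L ^ (U + 3))) := by
        apply mul_le_mul (by linarith) (by linarith) _ (by positivity)
        exact add_nonneg (sum_nonneg fun _ _ => by positivity) (sum_nonneg fun _ _ => by positivity)
    _ = N * (Y : ℝ) ^ 2 / L ^ U * ((8 * C₁ + 2) / L) := by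
        have : L ^ (U + 5) = L ^ U * L ^ 5 := by ring
        rw [this]
        have : L ^ (U + 3) = L ^ U * L ^ 3 := by ring
        rw [this]
        field_simp
        ring
    _ ≤ N * (Y : ℝ) ^ 2 / L ^ U * 1 := by
        apply mul_le_mul_of_nonneg_left _ (by positivity)
        rw [div_le_one hL0]
        linarith
    _ = N * (Y : ℝ) ^ 2 / L ^ U := mul_one _

/-- **MINZ** -/
theorem minz : S_ELM1 → S_T1 → S_MINZ := by
  intro hE hT U E
  obtain ⟨C, hC⟩ := minz1 hE hT U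
  obtain ⟨N₀, hN⟩ := hC E
  exact ⟨C, N₀, hN⟩

end Pool.Agent.V5helper22.MW
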